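import Pool.Agent.K7.H32.FT.Stm2

/-!
# Project FT, job JF: self-adjointness of the crossings for real `x > 1`
-/

set_option autoImplicit false

namespace Pool.Agent.K7.H58.FTJF

open Finset Matrix Pool.Agent.H550R3.Jones Pool.Agent.W715.VC Pool.Agent.K7.H32.FT

variable {N : ℕ}

lemma rb_pos {x : ℝ} (hx : 1 < x) {k : ℤ} (hk : 0 < k) : 0 < rb x k := by
  unfold rb
  have h1 : x ^ (-k) < x ^ k := zpow_lt_zpow_right₀ hx (by omega)
  linarith

lemma rbf_pos {x : ℝ} (hx : 1 < x) (n : ℕ) : 0 < rbf x n :=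
  prod_pos fun j _ => rb_pos hx (by positivity)

lemma br_ofReal (x : ℝ) (k : ℤ) : br (x : ℂ) k = (rb x k : ℂ) := by
  unfold br rb; push_cast; rfl

lemma brf_ofReal (x : ℝ) (n : ℕ) : brf (x : ℂ) n = (rbf x n : ℂ) := by
  unfold brf rbf; push_cast; exact prod_congr rfl fun j _ => br_ofReal x _

lemma adm {x : ℝ} (hx : 1 < x) : Adm N (x : ℂ) := by
  refine ⟨by exact_mod_cast (by positivity : x ≠ 0), fun k hk _ => ?_⟩
  rw [br_ofReal]
  exact_mod_cast (rb_pos hx (by exact_mod_cast hk)).ne'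

/-- the real form of the positive crossing -/
noncomputable def rP (x : ℝ) (p q : Fin N × Fin N) : ℝ :=
  if (p.1 : ℕ) + p.2 = q.1 + q.2 ∧ (q.2 : ℕ) ≤ p.1 then
    x ^ (-((N : ℤ) - 1) * (1 + (q.1 : ℕ) + (q.2 : ℕ)) + 2 * (p.1 : ℕ) * (p.2 : ℕ)) *
      x ^ (((p.1 : ℕ) - q.2) * ((p.1 : ℕ) - q.2 - 1) / 2) *
      (rbf x p.1 / (rbf x q.2 * rbf x ((p.1 : ℕ) - q.2))) *
      ∏ t ∈ range ((p.1 : ℕ) - q.2), rb x ((N : ℤ) - (q.1 : ℕ) + t)
    else 0

lemma P_ofReal (x : ℝ) (p q : Fin N × Fin N) : crossP N (x : ℂ) p q = (rP x p q : ℂ) := by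
  unfold crossP rP
  split_ifs with h
  · simp only [brf_ofReal, br_ofReal]
    push_cast
    rfl
  · simp

/-- the weights of the form on two strands -/
noncomputable def G2 (x : ℝ) (p : Fin N × Fin N) : ℝ :=
  1 / (rbf x p.1 * rbf x (N - 1 - p.1)) * (1 / (rbf x p.2 * rbf x (N - 1 - p.2))) *
    x ^ (-(2 * (p.1 : ℕ) * (p.2 : ℕ) : ℤ))

lemma prod_rb (x : ℝ) (m n : ℕ) :
    (∏ t ∈ range n, rb x ((m : ℤ) + 1 + t)) * rbf x m = rbf x (m + n) := by
  unfold rbf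
  rw [prod_range_add, mul_comm]
  congr 1
  refine prod_congr rfl fun t _ => ?_
  congr 1
  push_cast; ring

lemma P_sym {x : ℝ} (hx : 1 < x) (p q : Fin N × Fin N) :
    G2 x p * rP x p q = G2 x q * rP x q p := by
  by_cases hc : (p.1 : ℕ) + p.2 = q.1 + q.2 ∧ (q.2 : ℕ) ≤ p.1
  · have hc' : (q.1 : ℕ) + q.2 = p.1 + p.2 ∧ (p.2 : ℕ) ≤ q.1 := by omega
    unfold rP G2
    rw [if_pos hc, if_pos hc']
    obtain ⟨n, hn⟩ : ∃ n, (p.1 : ℕ) = q.2 + n := ⟨p.1 - q.2, by omega⟩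
    have e1 : (p.1 : ℕ) - q.2 = n := by omega
    have e2 : (q.1 : ℕ) - p.2 = n := by omega
    rw [e1, e2]
    have hp1 := p.1.2
    have hq1 := q.1.2
    have hT1 := prod_rb x (N - 1 - q.1) n
    have hT2 := prod_rb x (N - 1 - p.1) n
    rw [show N - 1 - (q.1 : ℕ) + n = N - 1 - p.2 by omega] at hT1
    rw [show N - 1 - (p.1 : ℕ) + n = N - 1 - q.2 by omega] at hT2
    have c1 : ((N - 1 - (q.1 : ℕ) : ℕ) : ℤ) + 1 = (N : ℤ) - (q.1 : ℕ) := by omega
    have c2 : ((N - 1 - (p.1 : ℕ) : ℕ) : ℤ) + 1 = (N : ℤ) - (p.1 : ℕ) := by omega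
    rw [c1] at hT1
    rw [c2] at hT2
    have hx0 : x ≠ 0 := by positivity
    have f1 := (rbf_pos hx (p.1 : ℕ)).ne'
    have f2 := (rbf_pos hx (p.2 : ℕ)).ne'
    have f3 := (rbf_pos hx (q.1 : ℕ)).ne'
    have f4 := (rbf_pos hx (q.2 : ℕ)).ne'
    have f5 := (rbf_pos hx (N - 1 - (p.1 : ℕ))).ne'
    have f6 := (rbf_pos hx (N - 1 - (p.2 : ℕ))).ne'
    have f7 := (rbf_pos hx (N - 1 - (q.1 : ℕ))).ne'
    have f8 := (rbf_pos hx (N - 1 - (q.2 : ℕ))).ne'
    have f9 := (rbf_pos hx n).ne'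
    have g1 := eq_div_of_mul_eq f7 hT1
    have g2 := eq_div_of_mul_eq f5 hT2
    rw [g1, g2]
    have z1 : x ^ (-((N : ℤ) - 1) * (1 + (q.1 : ℕ) + (q.2 : ℕ)) + 2 * (p.1 : ℕ) * (p.2 : ℕ)) =
        x ^ (-((N : ℤ) - 1) * (1 + (q.1 : ℕ) + (q.2 : ℕ))) *
          (x ^ (-(2 * (p.1 : ℕ) * (p.2 : ℕ) : ℤ)))⁻¹ := by
      rw [_root_.zpow_neg, inv_inv, zpow_add₀ hx0]
    have z2 : x ^ (-((N : ℤ) - 1) * (1 + (p.1 : ℕ) + (p.2 : ℕ)) + 2 * (q.1 : ℕ) * (q.2 : ℕ)) =
        x ^ (-((N : ℤ) - 1) * (1 + (q.1 : ℕ) + (q.2 : ℕ))) *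
          (x ^ (-(2 * (q.1 : ℕ) * (q.2 : ℕ) : ℤ)))⁻¹ := by
      rw [_root_.zpow_neg, inv_inv, zpow_add₀ hx0]
      congr 2
      have : ((p.1 : ℕ) : ℤ) + (p.2 : ℕ) = (q.1 : ℕ) + (q.2 : ℕ) := by exact_mod_cast hc.1
      linear_combination (-((N : ℤ) - 1)) * this
    rw [z1, z2]
    have w1 : x ^ (-(2 * (p.1 : ℕ) * (p.2 : ℕ) : ℤ)) ≠ 0 := zpow_ne_zero _ hx0
    have w2 : x ^ (-(2 * (q.1 : ℕ) * (q.2 : ℕ) : ℤ)) ≠ 0 := zpow_ne_zero _ hx0
    generalize x ^ (-(2 * (p.1 : ℕ) * (p.2 : ℕ) : ℤ)) = W1 at *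
    generalize x ^ (-(2 * (q.1 : ℕ) * (q.2 : ℕ) : ℤ)) = W2 at *
    generalize x ^ (-((N : ℤ) - 1) * (1 + (q.1 : ℕ) + (q.2 : ℕ))) = Y at *
    field_simp
  · have hc' : ¬ ((q.1 : ℕ) + q.2 = p.1 + p.2 ∧ (p.2 : ℕ) ≤ q.1) := by omega
    unfold rP
    rw [if_neg hc, if_neg hc', mul_zero, mul_zero]

lemma GG_two (x : ℝ) (hx : x ≠ 0) (a b : Fin N) (r : List (Fin N)) : GG x (a :: b :: r) =
    G2 x (a, b) * x ^ (-(2 * ((a : ℕ) + (b : ℕ)) * isum r)) * GG x r := by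
  unfold G2
  rw [H32.FT.GG, H32.FT.GG, isum_cons]
  have h1 : x ^ (-(2 * ((a : ℕ) : ℤ) * ((b : ℕ) + isum r))) =
      x ^ (-(2 * (a : ℕ) * (b : ℕ) : ℤ)) * x ^ (-(2 * ((a : ℕ) : ℤ) * isum r)) := by
    rw [← zpow_add₀ hx]; congr 1; ring
  have h2 : x ^ (-(2 * (((a : ℕ) : ℤ) + (b : ℕ)) * isum r)) =
      x ^ (-(2 * ((a : ℕ) : ℤ) * isum r)) * x ^ (-(2 * ((b : ℕ) : ℤ) * isum r)) := by
    rw [← zpow_add₀ hx]; congr 1; ring
  rw [h1, h2]
  ring

lemma sm_congr {M : Type} [AddCommMonoid M] (n : ℕ) : ∀ (h h' : List (Fin N) → M),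
    (∀ s, s.length = n → h s = h' s) → sm n h = sm n h' := by
  induction n with
  | zero => intro h h' hh; exact hh [] rfl
  | succ n ih =>
    intro h h' hh
    exact sum_congr rfl fun a _ => ih _ _ fun s hs => hh _ (by simp [hs])

lemma sm_sum {M ι : Type} [AddCommMonoid M] (S : Finset ι) (n : ℕ) :
    ∀ (h : ι → List (Fin N) → M), sm n (fun s => ∑ i ∈ S, h i s) = ∑ i ∈ S, sm n (h i) := by
  induction n with
  | zero => intro h; rfl
  | succ n ih =>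
    intro h
    simp only [sm]
    rw [sum_comm]
    exact sum_congr rfl fun a _ => ih _

/-- the form with an additional factor -/
noncomputable def ipf (x : ℝ) (φ : ℤ → ℂ) (n : ℕ) (f g : St N) : ℂ :=
  sm n (fun s => φ (isum s) * (GG x s : ℂ) * (starRingEnd ℂ (f s) * g s))

/-- symmetric matrices -/
def Sy (x : ℝ) (R : Mx N) : Prop :=
  ∀ p q, (G2 x p : ℂ) * starRingEnd ℂ (R p q) = (G2 x q : ℂ) * R q p

lemma ipf_two (x : ℝ) (φ : ℤ → ℂ) (m : ℕ) (f g : St N) : ipf x φ (m + 2) f g =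
    sm m (fun r => ∑ p : Fin N × Fin N, φ (((p.1 : ℕ) : ℤ) + ((p.2 : ℕ) + isum r)) *
      (GG x (p.1 :: p.2 :: r) : ℂ) *
      (starRingEnd ℂ (f (p.1 :: p.2 :: r)) * g (p.1 :: p.2 :: r))) := by
  unfold ipf
  rw [sm_sum, Fintype.sum_prod_type]
  simp only [sm, isum_cons]

lemma ipf_succ (x : ℝ) (φ : ℤ → ℂ) (n : ℕ) (f g : St N) : ipf x φ (n + 1) f g =
    ∑ a : Fin N, ipf x (fun y => φ ((a : ℕ) + y) *
      (1 / (rbf x a * rbf x (N - 1 - a)) * x ^ (-(2 * ((a : ℕ) : ℤ) * y)) : ℝ)) n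
        (cm a f) (cm a g) := by
  unfold ipf
  rw [sm]
  refine sum_congr rfl fun a _ => sm_congr n _ _ fun s _ => ?_
  simp only [isum_cons, cm_apply, H32.FT.GG]
  push_cast
  ring

lemma ipf_short (x : ℝ) (φ : ℤ → ℂ) (n : ℕ) (f g f' g' : St N)
    (h : ∀ s, s.length = n → starRingEnd ℂ (f s) * g s = starRingEnd ℂ (f' s) * g' s) :
    ipf x φ n f g = ipf x φ n f' g' := by
  unfold ipf
  exact sm_congr n _ _ fun s hs => by rw [h s hs]

lemma key {x : ℝ} (hx : 1 < x) {R : Mx N} (hw : Wp R) (hR : Sy x R) (i : ℕ) :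
    ∀ (n : ℕ) (φ : ℤ → ℂ) (f g : St N), ipf x φ n (cr R i f) g = ipf x φ n f (cr R i g) := by
  have hx0 : x ≠ 0 := by positivity
  induction i with
  | zero =>
    intro n φ f g
    rcases n with _ | _ | m
    · exact ipf_short _ _ _ _ _ _ _ fun s hs => by
        rw [cr_short R 0 f s (by omega), cr_short R 0 g s (by omega)]; simp
    · exact ipf_short _ _ _ _ _ _ _ fun s hs => by
        rw [cr_short R 0 f s (by omega), cr_short R 0 g s (by omega)]; simp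
    · rw [ipf_two, ipf_two]
      refine sm_congr m _ _ fun r _ => ?_
      simp only [cr_zero, map_sum, map_mul, sum_mul, mul_sum]
      rw [sum_comm]
      refine sum_congr rfl fun q _ => sum_congr rfl fun p _ => ?_
      by_cases h : R p q = 0
      · have h1 := hR p q
        rw [h, map_zero, mul_zero] at h1
        rw [h, map_zero]
        have h2 : (GG x (q.1 :: q.2 :: r) : ℂ) * R q p = 0 := by
          rw [GG_two x hx0]
          push_cast
          linear_combination (-(((x : ℂ) ^ (-(2 * (((q.1 : ℕ) : ℤ) + (q.2 : ℕ)) * isum r))) *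
            (GG x r : ℂ))) * h1
        linear_combination (-(φ (((q.1 : ℕ) : ℤ) + ((q.2 : ℕ) + isum r)) *
          (starRingEnd ℂ (f (q.1 :: q.2 :: r)) * g (p.1 :: p.2 :: r)))) * h2
      · have h1 := hw p q h
        have h2 := hR p q
        have h3 : (GG x (p.1 :: p.2 :: r) : ℂ) * starRingEnd ℂ (R p q) =
            (GG x (q.1 :: q.2 :: r) : ℂ) * R q p := by
          rw [GG_two x hx0, GG_two x hx0, h1]
          push_cast
          linear_combination ((((x : ℂ) ^ (-(2 * (((q.1 : ℕ) : ℤ) + (q.2 : ℕ)) * isum r))) *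
            (GG x r : ℂ))) * h2
        rw [show ((p.1 : ℕ) : ℤ) + ((p.2 : ℕ) + isum r) = (q.1 : ℕ) + ((q.2 : ℕ) + isum r) by
          linarith]
        linear_combination ((φ (((q.1 : ℕ) : ℤ) + ((q.2 : ℕ) + isum r)) *
          (starRingEnd ℂ (f (q.1 :: q.2 :: r)) * g (p.1 :: p.2 :: r)))) * h3
  | succ i ih =>
    intro n φ f g
    rcases n with _ | n
    · exact ipf_short _ _ _ _ _ _ _ fun s hs => by
        rw [cr_short R (i + 1) f s (by omega), cr_short R (i + 1) g s (by omega)]; simp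
    · rw [ipf_succ, ipf_succ]
      exact sum_congr rfl fun a _ => by rw [cm_cr_succ, cm_cr_succ, ih]

lemma Sy_P {x : ℝ} (hx : 1 < x) : Sy x (crossP N (x : ℂ)) := by
  intro p q
  rw [P_ofReal, P_ofReal, Complex.conj_ofReal]
  exact_mod_cast P_sym hx p q

lemma conj_P (x : ℝ) : (crossP N (x : ℂ)).map (starRingEnd ℂ) = crossP N (x : ℂ) := by
  ext p q
  rw [Matrix.map_apply, P_ofReal, Complex.conj_ofReal]

lemma conj_N {x : ℝ} (hx : 1 < x) :
    (crossN N (x : ℂ)).map (starRingEnd ℂ) = crossN N (x : ℂ) := by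
  have h1 := PQ (N := N) (adm hx)
  have h2 := QP (N := N) (adm hx)
  have h3 : (crossP N (x : ℂ)).map (starRingEnd ℂ) * (crossN N (x : ℂ)).map (starRingEnd ℂ) = 1 := by
    rw [← Matrix.map_mul, h1]
    exact Matrix.map_one _ (map_zero _) (map_one _)
  rw [conj_P] at h3
  calc (crossN N (x : ℂ)).map (starRingEnd ℂ)
      = (crossN N (x : ℂ) * crossP N (x : ℂ)) * (crossN N (x : ℂ)).map (starRingEnd ℂ) := by
        rw [h2, one_mul]
    _ = crossN N (x : ℂ) * (crossP N (x : ℂ) * (crossN N (x : ℂ)).map (starRingEnd ℂ)) := by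
        rw [Matrix.mul_assoc]
    _ = crossN N (x : ℂ) := by rw [h3, mul_one]

lemma Sy_N {x : ℝ} (hx : 1 < x) : Sy x (crossN N (x : ℂ)) := by
  have h1 := PQ (N := N) (adm hx)
  set P := crossP N (x : ℂ)
  set Q := crossN N (x : ℂ)
  set D : Mx N := diagonal (fun p => (G2 x p : ℂ))
  have hP : D * P = Pᵀ * D := by
    ext p q
    rw [diagonal_mul, mul_diagonal, transpose_apply]
    have h := Sy_P hx p q
    have hc : starRingEnd ℂ (P p q) = P p q := by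
      have := congrFun (congrFun (conj_P (N := N) x) p) q
      exact this
    rw [← hc, h, mul_comm]
  have hQ : D * Q = Qᵀ * D := by
    calc D * Q = (P * Q)ᵀ * (D * Q) := by rw [h1, transpose_one, one_mul]
      _ = Qᵀ * (Pᵀ * D) * Q := by rw [transpose_mul]; noncomm_ring
      _ = Qᵀ * (D * P) * Q := by rw [hP]
      _ = Qᵀ * D * (P * Q) := by noncomm_ring
      _ = Qᵀ * D := by rw [h1, mul_one]
  intro p q
  have h := congrFun (congrFun hQ p) q
  rw [diagonal_mul, mul_diagonal, transpose_apply] at h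
  have hc : starRingEnd ℂ (Q p q) = Q p q := congrFun (congrFun (conj_N (N := N) hx) p) q
  rw [hc, h, mul_comm]

theorem t_sac : S_SAC := by
  intro N x hx σ i n f g
  have hw : Wp (Rm N (x : ℂ) σ) := by
    unfold Rm
    rcases σ with _ | _
    · intro p q h
      have := Q_wt (N := N) (v := (x : ℂ)) (p := p) (q := q) (by simpa using h)
      exact_mod_cast this
    · intro p q h
      have := P_wt (N := N) (v := (x : ℂ)) (p := p) (q := q) (by simpa using h)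
      exact_mod_cast this
  have hs : Sy x (Rm N (x : ℂ) σ) := by
    unfold Rm
    rcases σ with _ | _
    · simpa using Sy_N hx
    · simpa using Sy_P hx
  have h := key hx hw hs i n (fun _ => 1) f g
  unfold ipf at h
  unfold ip
  simpa only [one_mul] using h

end Pool.Agent.K7.H58.FTJF
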