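import Mathlib

set_option autoImplicit false

/-!
# Integrality of sums of roots of unity with coefficients which are not integral
-/

namespace Pool.Agent.K7.H58.Ih

open Finset Polynomial IntermediateField

/-- The degree of `θ` over `ℚ(ζm)` is at least `D` if `ζn ∈ ℚ(ζm, θ)` and `φ(m) D ≤ φ(n)`. -/
lemma deg_ge {m n D : ℕ} (hm : 0 < m) (hn : 0 < n) {ζm ζn θ : ℂ} (h1 : IsPrimitiveRoot ζm m)
    (h2 : IsPrimitiveRoot ζn n) (hint : IsIntegral ℚ θ)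
    (hmem : ζn ∈ (IntermediateField.adjoin (ℚ⟮ζm⟯ : IntermediateField ℚ ℂ) ({θ} : Set ℂ)))
    (hD : m.totient * D ≤ n.totient) : D ≤ (minpoly (ℚ⟮ζm⟯ : IntermediateField ℚ ℂ) θ).natDegree := by
  have hi1 : IsIntegral ℚ ζm := (h1.isIntegral hm).tower_top
  have hi2 : IsIntegral ℚ ζn := (h2.isIntegral hn).tower_top
  have e1 : Module.finrank ℚ (ℚ⟮ζm⟯ : IntermediateField ℚ ℂ) = m.totient := by
    rw [IntermediateField.adjoin.finrank hi1, ← cyclotomic_eq_minpoly_rat h1 hm, natDegree_cyclotomic]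
  have e2 : Module.finrank ℚ (ℚ⟮ζn⟯ : IntermediateField ℚ ℂ) = n.totient := by
    rw [IntermediateField.adjoin.finrank hi2, ← cyclotomic_eq_minpoly_rat h2 hn, natDegree_cyclotomic]
  have hint' : IsIntegral (ℚ⟮ζm⟯ : IntermediateField ℚ ℂ) θ := hint.tower_top
  have e3 := IntermediateField.adjoin.finrank hint'
  have f1 : FiniteDimensional ℚ (ℚ⟮ζm⟯ : IntermediateField ℚ ℂ) := IntermediateField.adjoin.finiteDimensional hi1
  have f2 : FiniteDimensional (ℚ⟮ζm⟯ : IntermediateField ℚ ℂ)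
    (IntermediateField.adjoin (ℚ⟮ζm⟯ : IntermediateField ℚ ℂ) ({θ} : Set ℂ)) :=
    IntermediateField.adjoin.finiteDimensional hint'
  have f3 : FiniteDimensional ℚ (IntermediateField.adjoin (ℚ⟮ζm⟯ : IntermediateField ℚ ℂ) ({θ} : Set ℂ)) :=
    FiniteDimensional.trans ℚ (ℚ⟮ζm⟯ : IntermediateField ℚ ℂ) _
  have e4 : Module.finrank ℚ (ℚ⟮ζm⟯ : IntermediateField ℚ ℂ) *
      Module.finrank (ℚ⟮ζm⟯ : IntermediateField ℚ ℂ)
        (IntermediateField.adjoin (ℚ⟮ζm⟯ : IntermediateField ℚ ℂ) ({θ} : Set ℂ)) =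
      Module.finrank ℚ (IntermediateField.adjoin (ℚ⟮ζm⟯ : IntermediateField ℚ ℂ) ({θ} : Set ℂ)) :=
    Module.finrank_mul_finrank _ _ _
  have hle : (ℚ⟮ζn⟯ : IntermediateField ℚ ℂ) ≤
      (IntermediateField.adjoin (ℚ⟮ζm⟯ : IntermediateField ℚ ℂ) ({θ} : Set ℂ)).restrictScalars ℚ := by
    rw [IntermediateField.adjoin_simple_le_iff]
    exact hmem
  have f4 : FiniteDimensional ℚ
    ((IntermediateField.adjoin (ℚ⟮ζm⟯ : IntermediateField ℚ ℂ) ({θ} : Set ℂ)).restrictScalars ℚ) := f3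
  have e5 : Module.finrank ℚ (ℚ⟮ζn⟯ : IntermediateField ℚ ℂ) ≤
      Module.finrank ℚ ((IntermediateField.adjoin (ℚ⟮ζm⟯ : IntermediateField ℚ ℂ) ({θ} : Set ℂ)).restrictScalars ℚ) :=
    LinearMap.finrank_le_finrank_of_injective (f := (IntermediateField.inclusion hle).toLinearMap)
      (IntermediateField.inclusion hle).injective
  have e6 : Module.finrank ℚ ((IntermediateField.adjoin (ℚ⟮ζm⟯ : IntermediateField ℚ ℂ) ({θ} : Set ℂ)).restrictScalars ℚ) =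
    Module.finrank ℚ (IntermediateField.adjoin (ℚ⟮ζm⟯ : IntermediateField ℚ ℂ) ({θ} : Set ℂ)) := rfl
  rw [e6, ← e4, e1, e2, e3] at e5
  have hpos : 0 < m.totient := Nat.totient_pos.2 hm
  exact Nat.le_of_mul_le_mul_left (hD.trans e5) hpos

/-- linear independence of the powers of `θ` -/
lemma li {D : ℕ} {K : IntermediateField ℚ ℂ} {θ : ℂ} (hD : D ≤ (minpoly K θ).natDegree)
    (A : ℕ → ℂ) (hA : ∀ s, A s ∈ K) (h : ∑ s ∈ range D, A s * θ ^ s = 0) : ∀ s < D, A s = 0 := by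
  intro s hs
  by_contra hne
  obtain ⟨p, hp⟩ : ∃ p : K[X], p = ∑ s ∈ range D, C (⟨A s, hA s⟩ : K) * X ^ s := ⟨_, rfl⟩
  have hc : ∀ t, t < D → p.coeff t = ⟨A t, hA t⟩ := by
    intro t ht
    rw [hp, finsetSum_coeff]
    simp only [coeff_C_mul, coeff_X_pow]
    rw [sum_eq_single t]
    · simp
    · intro b _ hb
      simp [Ne.symm hb]
    · intro h'
      exact absurd (mem_range.2 ht) h'
  have hp0 : p ≠ 0 := by
    intro h0
    have := hc s hs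
    rw [h0, coeff_zero] at this
    apply hne
    exact (congrArg (fun x : K => (x : ℂ)) this).symm
  have hev : aeval θ p = 0 := by
    rw [hp, map_sum, ← h]
    refine sum_congr rfl fun t _ => ?_
    simp only [map_mul, aeval_C, map_pow, aeval_X]
    rfl
  have h1 := minpoly.degree_le_of_ne_zero K θ hp0 hev
  have h2 : natDegree (minpoly K θ) ≤ natDegree p := natDegree_le_natDegree h1
  have h3 : p.degree < D := by
    rw [hp]
    refine (degree_sum_le _ _).trans_lt ?_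
    rw [Finset.sup_lt_iff (by exact WithBot.bot_lt_coe D)]
    intro t ht
    refine (degree_C_mul_X_pow_le _ _).trans_lt ?_
    exact_mod_cast mem_range.1 ht
  have h4 : natDegree p < D := by
    rw [natDegree_lt_iff_degree_lt hp0]
    exact h3
  omega

lemma integral_mem {n : ℕ} (hn : 0 < n) {ζ : ℂ} (h : IsPrimitiveRoot ζ n) {β : ℂ}
    (h1 : β ∈ (ℚ⟮ζ⟯ : IntermediateField ℚ ℂ)) (h2 : IsIntegral ℤ β) : β ∈ Algebra.adjoin ℤ ({ζ} : Set ℂ) := by
  have : NeZero n := ⟨by omega⟩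
  have : IsCyclotomicExtension {n} ℚ (ℚ⟮ζ⟯ : IntermediateField ℚ ℂ) := by
    change IsCyclotomicExtension {n} ℚ (ℚ⟮ζ⟯ : IntermediateField ℚ ℂ).toSubalgebra
    rw [IntermediateField.adjoin_simple_toSubalgebra_of_isAlgebraic
      ((h.isIntegral hn).tower_top (A := ℚ)).isAlgebraic]
    exact h.adjoin_isCyclotomicExtension ℚ
  have hz : IsPrimitiveRoot (AdjoinSimple.gen ℚ ζ) n := IsPrimitiveRoot.coe_submonoidClass_iff.mp h
  have key := IsCyclotomicExtension.Rat.isIntegralClosure_adjoin_singleton hz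
  have h3 : IsIntegral ℤ (⟨β, h1⟩ : (ℚ⟮ζ⟯ : IntermediateField ℚ ℂ)) := by
    have := (isIntegral_algHom_iff ((ℚ⟮ζ⟯ : IntermediateField ℚ ℂ).val.restrictScalars ℤ)
      (RingHom.injective _) (x := (⟨β, h1⟩ : (ℚ⟮ζ⟯ : IntermediateField ℚ ℂ)))).1
    exact this h2
  obtain ⟨y, hy⟩ := key.isIntegral_iff.1 h3
  have h4 : (⟨β, h1⟩ : (ℚ⟮ζ⟯ : IntermediateField ℚ ℂ)) ∈ Algebra.adjoin ℤ ({AdjoinSimple.gen ℚ ζ} : Set _) := by
    rw [← hy]
    exact y.2
  have h5 : ((ℚ⟮ζ⟯ : IntermediateField ℚ ℂ).val.restrictScalars ℤ) (⟨β, h1⟩ : (ℚ⟮ζ⟯ : IntermediateField ℚ ℂ)) ∈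
      Subalgebra.map ((ℚ⟮ζ⟯ : IntermediateField ℚ ℂ).val.restrictScalars ℤ)
        (Algebra.adjoin ℤ ({AdjoinSimple.gen ℚ ζ} : Set _)) := ⟨_, h4, rfl⟩
  rw [AlgHom.map_adjoin, Set.image_singleton] at h5
  exact h5

/-- `β` is a combination of `1, θ, ..., θ ^ (D - 1)` with integral coefficients in `K` -/
def W (K : IntermediateField ℚ ℂ) (θ : ℂ) (D : ℕ) (β : ℂ) : Prop :=
  ∃ B : ℕ → ℂ, (∀ s, B s ∈ K ∧ IsIntegral ℤ (B s)) ∧ β = ∑ s ∈ range D, B s * θ ^ s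

lemma W_zero (K : IntermediateField ℚ ℂ) (θ : ℂ) (D : ℕ) : W K θ D 0 :=
  ⟨fun _ => 0, fun _ => ⟨K.zero_mem, isIntegral_zero⟩, by simp⟩

lemma W_add {K : IntermediateField ℚ ℂ} {θ : ℂ} {D : ℕ} {a b : ℂ} (ha : W K θ D a) (hb : W K θ D b) :
    W K θ D (a + b) := by
  obtain ⟨A, hA, rfl⟩ := ha
  obtain ⟨B, hB, rfl⟩ := hb
  refine ⟨fun s => A s + B s, fun s => ⟨K.add_mem (hA s).1 (hB s).1, (hA s).2.add (hB s).2⟩, ?_⟩
  rw [← sum_add_distrib]
  exact sum_congr rfl fun s _ => by ring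

lemma W_zmul {K : IntermediateField ℚ ℂ} {θ : ℂ} {D : ℕ} {a : ℂ} (ha : W K θ D a) (k : ℤ) :
    W K θ D (k * a) := by
  obtain ⟨A, hA, rfl⟩ := ha
  refine ⟨fun s => k * A s, fun s => ⟨K.mul_mem (intCast_mem K k) (hA s).1,
    (isIntegral_algebraMap (R := ℤ) (A := ℂ) (x := k)).mul (hA s).2⟩, ?_⟩
  rw [mul_sum]
  exact sum_congr rfl fun s _ => by ring

lemma W_of_integral {n : ℕ} (hn : 0 < n) {ζ : ℂ} (h : IsPrimitiveRoot ζ n) {K : IntermediateField ℚ ℂ} {θ : ℂ}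
    {D : ℕ} (hW : ∀ i : ℕ, W K θ D (ζ ^ i)) {β : ℂ} (h1 : β ∈ (ℚ⟮ζ⟯ : IntermediateField ℚ ℂ))
    (h2 : IsIntegral ℤ β) : W K θ D β := by
  have h3 := integral_mem hn h h1 h2
  rw [Algebra.adjoin_singleton_eq_range_aeval] at h3
  obtain ⟨p, hp⟩ := h3
  have hp' : aeval ζ p = β := hp
  rw [← hp', aeval_eq_sum_range]
  have key : ∀ N : ℕ, W K θ D (∑ i ∈ range N, p.coeff i • ζ ^ i) := by
    intro N
    induction N with
    | zero => simpa using W_zero K θ D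
    | succ N ih =>
      rw [sum_range_succ]
      refine W_add ih ?_
      rw [zsmul_eq_mul]
      exact W_zmul (hW N) _
  exact key _

/-- the coefficients of an integral combination are integral -/
lemma coeff_integral {n D : ℕ} (hn : 0 < n) {ζ : ℂ} (h : IsPrimitiveRoot ζ n) {K : IntermediateField ℚ ℂ} {θ : ℂ}
    (hD : D ≤ (minpoly K θ).natDegree) (hK : K ≤ (ℚ⟮ζ⟯ : IntermediateField ℚ ℂ))
    (hθ : θ ∈ (ℚ⟮ζ⟯ : IntermediateField ℚ ℂ)) (hW : ∀ i : ℕ, W K θ D (ζ ^ i)) (A : ℕ → ℂ) (hA : ∀ s, A s ∈ K)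
    (hint : IsIntegral ℤ (∑ s ∈ range D, A s * θ ^ s)) : ∀ s < D, IsIntegral ℤ (A s) := by
  intro s hs
  have h1 : ∑ s ∈ range D, A s * θ ^ s ∈ (ℚ⟮ζ⟯ : IntermediateField ℚ ℂ) :=
    sum_mem fun t _ => mul_mem (hK (hA t)) (pow_mem hθ t)
  obtain ⟨B, hB, hE⟩ := W_of_integral hn h hW h1 hint
  have h2 := li hD (fun t => A t - B t) (fun t => K.sub_mem (hA t) (hB t).1) (by
    have : ∑ t ∈ range D, (A t - B t) * θ ^ t = ∑ t ∈ range D, A t * θ ^ t - ∑ t ∈ range D, B t * θ ^ t := by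
      rw [← sum_sub_distrib]
      exact sum_congr rfl fun t _ => by ring
    rw [this, hE, sub_self]) s hs
  have h3 : A s = B s := sub_eq_zero.1 h2
  rw [h3]
  exact (hB s).2

/-- all the terms of a minimal integral sum are in one class -/
lemma classes {ι : Type*} {n D : ℕ} (hn : 0 < n) {ζ : ℂ} (h : IsPrimitiveRoot ζ n)
    {K : IntermediateField ℚ ℂ} {θ : ℂ} (hD : D ≤ (minpoly K θ).natDegree)
    (hK : K ≤ (ℚ⟮ζ⟯ : IntermediateField ℚ ℂ)) (hθ : θ ∈ (ℚ⟮ζ⟯ : IntermediateField ℚ ℂ))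
    (hθi : IsIntegral ℤ θ) (hW : ∀ i : ℕ, W K θ D (ζ ^ i)) (I : Finset ι) (c ω : ι → ℂ) (s : ι → ℕ)
    (hc : ∀ i ∈ I, c i ∈ K) (hω : ∀ i ∈ I, ω i ∈ K) (hs : ∀ i ∈ I, s i < D)
    (hint : IsIntegral ℤ (∑ i ∈ I, c i * (ω i * θ ^ s i)))
    (hmin : ∀ J ⊆ I, J.Nonempty → IsIntegral ℤ (∑ i ∈ J, c i * (ω i * θ ^ s i)) → J = I) :
    ∀ i ∈ I, ∀ j ∈ I, s i = s j := by
  classical
  intro i hi j hj
  have e1 : ∑ i ∈ I, c i * (ω i * θ ^ s i) =
      ∑ t ∈ range D, (∑ k ∈ I.filter (fun k => s k = t), c k * ω k) * θ ^ t := by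
    rw [← sum_fiberwise_of_maps_to (s := I) (t := range D) (g := s) (fun k hk => mem_range.2 (hs k hk))]
    refine sum_congr rfl fun t _ => ?_
    rw [sum_mul]
    refine sum_congr rfl fun k hk => ?_
    rw [(mem_filter.1 hk).2]
    ring
  rw [e1] at hint
  have h1 := coeff_integral hn h hD hK hθ hW (fun t => ∑ k ∈ I.filter (fun k => s k = t), c k * ω k)
    (fun t => sum_mem fun k hk => mul_mem (hc k (mem_filter.1 hk).1) (hω k (mem_filter.1 hk).1)) hint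
    (s i) (hs i hi)
  have h2 : I.filter (fun k => s k = s i) = I := by
    refine hmin _ (filter_subset _ _) ⟨i, mem_filter.2 ⟨hi, rfl⟩⟩ ?_
    have e2 : ∑ k ∈ I.filter (fun k => s k = s i), c k * (ω k * θ ^ s k) =
        (∑ k ∈ I.filter (fun k => s k = s i), c k * ω k) * θ ^ s i := by
      rw [sum_mul]
      refine sum_congr rfl fun k hk => ?_
      rw [(mem_filter.1 hk).2]
      ring
    rw [e2]
    exact h1.mul (hθi.pow _)
  have h3 : j ∈ I.filter (fun k => s k = s i) := by rw [h2]; exact hj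
  exact (mem_filter.1 h3).2.symm

end Pool.Agent.K7.H58.Ih
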