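import Pool.Agent.K7.H58.IhStep

set_option autoImplicit false

/-!
# Integral sums of roots of unity with non-integral cyclotomic coefficients
-/

namespace Pool.Agent.K7.H58.Ih

open Finset

lemma bounded {ι : Type*} {f N : ℕ} (hf : 0 < f) (hN : 0 < N) (I : Finset ι) (c z : ι → ℂ)
    (hc : ∀ i ∈ I, c i ∈ CF f) (hz : ∀ i ∈ I, z i ^ N = 1) (hint : IsIntegral ℤ (∑ i ∈ I, c i * z i))
    (hmin : ∀ J ⊆ I, J.Nonempty → IsIntegral ℤ (∑ i ∈ J, c i * z i) → J = I) :
    ∀ i ∈ I, ∀ j ∈ I, (z i / z j) ^ (f * primorial I.card) = 1 := by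
  classical
  have hex : ∃ n : ℕ, 0 < n ∧ f ∣ n ∧ ∀ i ∈ I, ∀ j ∈ I, (z i / z j) ^ n = 1 := by
    refine ⟨f * N, Nat.mul_pos hf hN, Dvd.intro _ rfl, fun i hi j hj => ?_⟩
    rw [mul_comm, pow_mul, div_pow, hz i hi, hz j hj, div_one, one_pow]
  obtain ⟨hn0, ⟨k, hk⟩, hn⟩ := Nat.find_spec hex
  have hmin' : ∀ n, n < Nat.find hex → ¬ (0 < n ∧ f ∣ n ∧ ∀ i ∈ I, ∀ j ∈ I, (z i / z j) ^ n = 1) :=
    fun n hn => Nat.find_min hex hn
  obtain ⟨n0, hn0'⟩ : ∃ n0, n0 = Nat.find hex := ⟨_, rfl⟩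
  rw [← hn0'] at hn0 hk hn hmin'
  have hk0 : 0 < k := by
    rcases Nat.eq_zero_or_pos k with h | h
    · rw [h, mul_zero] at hk
      omega
    · exact h
  -- every prime divisor of `k`
  have hp : ∀ l k' : ℕ, l.Prime → k = l * k' → ¬ (l ∣ f * k' ∨ I.card < l) := by
    intro l k' hl hkk hor
    have hk'0 : 0 < k' := by
      rcases Nat.eq_zero_or_pos k' with h | h
      · rw [h, mul_zero] at hkk
        omega
      · exact h
    have hm : 0 < f * k' := Nat.mul_pos hf hk'0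
    have e : n0 = l * (f * k') := by rw [hk, hkk]; ring
    have h1 := step hl hm (Dvd.intro _ rfl) I hor c z hc hN hz hint hmin (by rw [← e]; exact hn)
    refine hmin' (f * k') ?_ ⟨hm, Dvd.intro _ rfl, h1⟩
    rw [e]
    have := hl.two_le
    nlinarith
  have hsq : Squarefree k := by
    rw [Nat.squarefree_iff_prime_squarefree]
    rintro l hl ⟨k'', hk''⟩
    refine hp l (l * k'') hl (by rw [hk'', mul_assoc]) (Or.inl ?_)
    exact Dvd.dvd.mul_left (Dvd.intro _ rfl) f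
  have hkp : k ∣ primorial I.card := by
    rw [← Nat.prod_primeFactors_of_squarefree hsq]
    unfold primorial
    refine prod_dvd_prod_of_subset _ _ _ fun l hl => ?_
    have hlp := Nat.prime_of_mem_primeFactors hl
    obtain ⟨k', hk'⟩ := Nat.dvd_of_mem_primeFactors hl
    have h1 := hp l k' hlp hk'
    rw [mem_filter, mem_range]
    refine ⟨?_, hlp⟩
    by_contra hcon
    exact h1 (Or.inr (by omega))
  intro i hi j hj
  obtain ⟨r, hr⟩ := hkp
  rw [hr, ← mul_assoc, ← hk, pow_mul, hn i hi j hj, one_pow]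

/-- If a sum of roots of unity with coefficients in `ℚ(μ_f)`, not all integral, is integral, then two of the roots of
unity with non-integral coefficients have a quotient of bounded order. -/
theorem core {ι : Type*} {f N : ℕ} (hf : 0 < f) (hN : 0 < N) (T : Finset ι) (c z : ι → ℂ)
    (hc : ∀ i ∈ T, c i ∈ CF f) (hz : ∀ i ∈ T, z i ^ N = 1) (hint : IsIntegral ℤ (∑ i ∈ T, c i * z i))
    (B : Finset ι) (hB : ∀ i, i ∈ B ↔ i ∈ T ∧ ¬ IsIntegral ℤ (c i)) (hBn : B.Nonempty) :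
    ∃ i ∈ B, ∃ j ∈ B, i ≠ j ∧ (z i / z j) ^ (f * primorial B.card) = 1 := by
  classical
  have hBT : B ⊆ T := fun i hi => ((hB i).1 hi).1
  have hBint : IsIntegral ℤ (∑ i ∈ B, c i * z i) := by
    have h1 : ∑ i ∈ T \ B, c i * z i + ∑ i ∈ B, c i * z i = ∑ i ∈ T, c i * z i := sum_sdiff hBT
    have h2 : IsIntegral ℤ (∑ i ∈ T \ B, c i * z i) := by
      refine IsIntegral.sum _ fun i hi => ?_
      rw [mem_sdiff] at hi
      have h3 : IsIntegral ℤ (c i) := by
        by_contra hcon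
        exact hi.2 ((hB i).2 ⟨hi.1, hcon⟩)
      exact h3.mul (isInt_of_pow hN (hz i hi.1))
    have h3 : ∑ i ∈ B, c i * z i = ∑ i ∈ T, c i * z i - ∑ i ∈ T \ B, c i * z i := by
      rw [← h1]
      ring
    rw [h3]
    exact hint.sub h2
  obtain ⟨I, hI, hImin⟩ := exists_min_image
    (B.powerset.filter (fun J => J.Nonempty ∧ IsIntegral ℤ (∑ i ∈ J, c i * z i))) (fun J => J.card)
    ⟨B, mem_filter.2 ⟨mem_powerset.2 (subset_refl _), hBn, hBint⟩⟩
  rw [mem_filter, mem_powerset] at hI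
  obtain ⟨hIB, hIn, hIi⟩ := hI
  have hmin : ∀ J ⊆ I, J.Nonempty → IsIntegral ℤ (∑ i ∈ J, c i * z i) → J = I := by
    intro J hJ hJn hJi
    exact eq_of_subset_of_card_le hJ
      (hImin J (mem_filter.2 ⟨mem_powerset.2 (hJ.trans hIB), hJn, hJi⟩))
  have hcard : 1 < I.card := by
    by_contra hcon
    have h1 : I.card = 1 := by
      have := hIn.card_pos
      omega
    obtain ⟨i, rfl⟩ := card_eq_one.1 h1
    rw [sum_singleton] at hIi
    have hi : i ∈ B := hIB (mem_singleton_self i)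
    have hz1 := hz i (hBT hi)
    have hz0 : z i ≠ 0 := by
      intro h0
      rw [h0, zero_pow (by omega)] at hz1
      exact zero_ne_one hz1
    have h2 : IsIntegral ℤ (z i)⁻¹ := isInt_of_pow hN (by rw [inv_pow, hz1, inv_one])
    have h3 := hIi.mul h2
    rw [mul_assoc, mul_inv_cancel₀ hz0, mul_one] at h3
    exact ((hB i).1 hi).2 h3
  obtain ⟨i, hi, j, hj, hij⟩ := one_lt_card.1 hcard
  have h1 := bounded hf hN I c z (fun i hi => hc i (hBT (hIB hi))) (fun i hi => hz i (hBT (hIB hi))) hIi hmin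
    i hi j hj
  refine ⟨i, hIB hi, j, hIB hj, hij, ?_⟩
  have h2 : primorial I.card ∣ primorial B.card := by
    unfold primorial
    refine prod_dvd_prod_of_subset _ _ _ fun l hl => ?_
    rw [mem_filter, mem_range] at hl ⊢
    have := card_le_card hIB
    exact ⟨by omega, hl.2⟩
  obtain ⟨r, hr⟩ := h2
  rw [hr, ← mul_assoc, pow_mul, h1, one_pow]

end Pool.Agent.K7.H58.Ih
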