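import Pool.Agent.K7.H58.IhCore

set_option autoImplicit false

/-!
# Minimal integral sums of roots of unity with non-integral cyclotomic coefficients
-/

namespace Pool.Agent.K7.H58.Ih

open Finset Polynomial IntermediateField

/-- the field generated by the `f`-th roots of unity -/
noncomputable def CF (f : ℕ) : IntermediateField ℚ ℂ := IntermediateField.adjoin ℚ {z : ℂ | z ^ f = 1}

lemma CF_le {f m : ℕ} (hfm : f ∣ m) (hm : 0 < m) {ζ : ℂ} (h : IsPrimitiveRoot ζ m) :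
    CF f ≤ (ℚ⟮ζ⟯ : IntermediateField ℚ ℂ) := by
  have : NeZero m := ⟨by omega⟩
  unfold CF
  rw [IntermediateField.adjoin_le_iff]
  intro z hz
  have hz' : z ^ f = 1 := hz
  obtain ⟨k, rfl⟩ := hfm
  have hz2 : z ^ (f * k) = 1 := by rw [pow_mul, hz', one_pow]
  obtain ⟨i, -, hi⟩ := h.eq_pow_of_pow_eq_one hz2
  rw [← hi]
  exact pow_mem (mem_adjoin_simple_self ℚ ζ) i

lemma finish {ι : Type*} {m n D : ℕ} (hn : 0 < n) {ζ : ℂ} (h : IsPrimitiveRoot ζ n)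
    {K : IntermediateField ℚ ℂ} {θ : ℂ} (hD : D ≤ (minpoly K θ).natDegree)
    (hK : K ≤ (ℚ⟮ζ⟯ : IntermediateField ℚ ℂ)) (hθ : θ ∈ (ℚ⟮ζ⟯ : IntermediateField ℚ ℂ))
    (hθi : IsIntegral ℤ θ) (hθ0 : θ ≠ 0) (hW : ∀ i : ℕ, W K θ D (ζ ^ i)) (I : Finset ι) (c z ω : ι → ℂ)
    (s : ι → ℕ) (u : ℂ) (hc : ∀ i ∈ I, c i ∈ K) (hω : ∀ i ∈ I, ω i ∈ K ∧ ω i ^ m = 1) (hs : ∀ i ∈ I, s i < D)
    (hu0 : u ≠ 0) (hu1 : IsIntegral ℤ u) (hu2 : IsIntegral ℤ u⁻¹) (hzu : ∀ i ∈ I, z i * u = ω i * θ ^ s i)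
    (hint : IsIntegral ℤ (∑ i ∈ I, c i * z i))
    (hmin : ∀ J ⊆ I, J.Nonempty → IsIntegral ℤ (∑ i ∈ J, c i * z i) → J = I) :
    ∀ i ∈ I, ∀ j ∈ I, (z i / z j) ^ m = 1 := by
  have e : ∀ J ⊆ I, ∑ i ∈ J, c i * (ω i * θ ^ s i) = u * ∑ i ∈ J, c i * z i := by
    intro J hJ
    rw [mul_sum]
    refine sum_congr rfl fun i hi => ?_
    rw [← hzu i (hJ hi)]
    ring
  have h1 := classes hn h hD hK hθ hθi hW I c ω s hc (fun i hi => (hω i hi).1) hs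
    (by rw [e I (subset_refl _)]; exact hu1.mul hint)
    (by
      intro J hJ hJn hJi
      rw [e J hJ] at hJi
      refine hmin J hJ hJn ?_
      have := hu2.mul hJi
      rwa [← mul_assoc, inv_mul_cancel₀ hu0, one_mul] at this)
  intro i hi j hj
  have h2 : z i / z j = ω i / ω j := by
    have h3 : z i / z j = (z i * u) / (z j * u) := by rw [mul_div_mul_right _ _ hu0]
    rw [h3, hzu i hi, hzu j hj, h1 i hi j hj, mul_div_mul_right _ _ (pow_ne_zero _ hθ0)]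
  rw [h2, div_pow, (hω i hi).2, (hω j hj).2, div_one]

lemma isInt_of_pow {z : ℂ} {n : ℕ} (hn : 0 < n) (h : z ^ n = 1) : IsIntegral ℤ z := by
  refine IsIntegral.of_pow hn ?_
  rw [h]
  exact isIntegral_one

lemma W_single {K : IntermediateField ℚ ℂ} {θ : ℂ} {D b : ℕ} {ω : ℂ} (h1 : ω ∈ K) (h2 : IsIntegral ℤ ω) (hb : b < D) :
    W K θ D (ω * θ ^ b) := by
  refine ⟨fun s => if s = b then ω else 0, fun s => ?_, ?_⟩
  · by_cases hs : s = b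
    · simp only [hs, if_true]
      exact ⟨h1, h2⟩
    · simp only [hs, if_false]
      exact ⟨K.zero_mem, isIntegral_zero⟩
  · simp only [ite_mul, zero_mul]
    rw [sum_ite_eq' (range D) b]
    simp [hb]

/-- the exponents can be split -/
lemma split_exp {l m : ℕ} (hl : 0 < l) (hcop : Nat.Coprime l m) {ζ : ℂ} (h : ζ ^ (l * m) = 1) (t : ℕ) :
    ∃ a b : ℕ, b < l ∧ ζ ^ t = (ζ ^ l) ^ a * (ζ ^ m) ^ b := by
  obtain ⟨x, hx1, hx2⟩ := Nat.chineseRemainder hcop t 0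
  obtain ⟨y, hy1, hy2⟩ := Nat.chineseRemainder hcop 0 t
  have hxm : m ∣ x := (Nat.modEq_zero_iff_dvd).1 hx2
  have hyl : l ∣ y := (Nat.modEq_zero_iff_dvd).1 hy1
  obtain ⟨b, rfl⟩ := hxm
  obtain ⟨a, rfl⟩ := hyl
  have h1 : l * a + m * b ≡ t [MOD l] := by simpa using Nat.ModEq.add hy1 hx1
  have h2 : l * a + m * b ≡ t [MOD m] := by simpa using Nat.ModEq.add hy2 hx2
  have h3 : l * a + m * b ≡ t [MOD (l * m)] := (Nat.modEq_and_modEq_iff_modEq_mul hcop).1 ⟨h1, h2⟩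
  refine ⟨a, b % l, Nat.mod_lt _ hl, ?_⟩
  have h4 : ζ ^ t = ζ ^ (l * a + m * b) := by
    rw [pow_eq_pow_mod t h, pow_eq_pow_mod (l * a + m * b) h, h3]
  have h5 : (ζ ^ m) ^ l = 1 := by rw [← pow_mul, mul_comm m l, h]
  rw [h4, pow_add, pow_mul, pow_mul, pow_eq_pow_mod b h5]

lemma step {ι : Type*} {f m l : ℕ} (hl : l.Prime) (hm : 0 < m) (hf : f ∣ m) (I : Finset ι)
    (hI : l ∣ m ∨ I.card < l) (c z : ι → ℂ) (hc : ∀ i ∈ I, c i ∈ CF f) {N : ℕ} (hN : 0 < N)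
    (hz : ∀ i ∈ I, z i ^ N = 1) (hint : IsIntegral ℤ (∑ i ∈ I, c i * z i))
    (hmin : ∀ J ⊆ I, J.Nonempty → IsIntegral ℤ (∑ i ∈ J, c i * z i) → J = I)
    (hn : ∀ i ∈ I, ∀ j ∈ I, (z i / z j) ^ (l * m) = 1) : ∀ i ∈ I, ∀ j ∈ I, (z i / z j) ^ m = 1 := by
  classical
  intro i0 hi0
  have hl0 : 0 < l := hl.pos
  have hn0 : 0 < l * m := Nat.mul_pos hl0 hm
  have : NeZero (l * m) := ⟨by omega⟩
  obtain ⟨ζ, h⟩ : ∃ ζ : ℂ, IsPrimitiveRoot ζ (l * m) := ⟨_, Complex.isPrimitiveRoot_exp (l * m) (by omega)⟩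
  have hζ1 : ζ ^ (l * m) = 1 := h.pow_eq_one
  have hζ0 : ζ ≠ 0 := h.ne_zero (by omega)
  have hζi : IsIntegral ℤ ζ := isInt_of_pow hn0 hζ1
  have h1 : IsPrimitiveRoot (ζ ^ l) m := h.pow hn0 rfl
  have hi1 : (ζ ^ l) ^ m = 1 := h1.pow_eq_one
  have hKf : CF f ≤ (ℚ⟮ζ ^ l⟯ : IntermediateField ℚ ℂ) := CF_le hf hm h1
  have hK : (ℚ⟮ζ ^ l⟯ : IntermediateField ℚ ℂ) ≤ (ℚ⟮ζ⟯ : IntermediateField ℚ ℂ) := by
    rw [IntermediateField.adjoin_simple_le_iff]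
    exact pow_mem (mem_adjoin_simple_self ℚ ζ) l
  have hK1 : ∀ a : ℕ, (ζ ^ l) ^ a ∈ (ℚ⟮ζ ^ l⟯ : IntermediateField ℚ ℂ) :=
    fun a => pow_mem (mem_adjoin_simple_self ℚ (ζ ^ l)) a
  have hK2 : ∀ a : ℕ, IsIntegral ℤ ((ζ ^ l) ^ a) := fun a => (hζi.pow _).pow _
  have hK3 : ∀ a : ℕ, ((ζ ^ l) ^ a) ^ m = 1 := fun a => by rw [pow_right_comm, hi1, one_pow]
  have hz0 : z i0 ≠ 0 := by
    intro h0
    have := hz i0 hi0
    rw [h0, zero_pow (by omega)] at this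
    exact zero_ne_one this
  have hzi : IsIntegral ℤ (z i0) := isInt_of_pow hN (hz i0 hi0)
  have hzi' : IsIntegral ℤ (z i0)⁻¹ := isInt_of_pow hN (by rw [inv_pow, hz i0 hi0, inv_one])
  -- exponents of the quotients
  have hex : ∀ i : ι, ∃ t : ℕ, i ∈ I → z i * (z i0)⁻¹ = ζ ^ t := by
    intro i
    by_cases hi : i ∈ I
    · obtain ⟨t, -, ht⟩ := h.eq_pow_of_pow_eq_one (hn i hi i0 hi0)
      exact ⟨t, fun _ => by rw [ht, div_eq_mul_inv]⟩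
    · exact ⟨0, fun h' => absurd h' hi⟩
  choose t ht using hex
  by_cases hdvd : l ∣ m
  · -- the prime divides `m`
    have hD : l ≤ (minpoly (ℚ⟮ζ ^ l⟯ : IntermediateField ℚ ℂ) ζ).natDegree := by
      refine deg_ge hm hn0 h1 h (hζi.tower_top) (mem_adjoin_simple_self _ ζ) ?_
      rw [Nat.totient_mul_of_prime_of_dvd hl hdvd, mul_comm]
    have hsplit : ∀ i : ℕ, ζ ^ i = (ζ ^ l) ^ (i / l) * ζ ^ (i % l) := by
      intro i
      rw [← pow_mul, ← pow_add, Nat.div_add_mod]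
    have hW : ∀ i : ℕ, W (ℚ⟮ζ ^ l⟯ : IntermediateField ℚ ℂ) ζ l (ζ ^ i) := by
      intro i
      rw [hsplit i]
      exact W_single (hK1 _) (hK2 _) (Nat.mod_lt _ hl0)
    exact finish hn0 h hD hK (mem_adjoin_simple_self ℚ ζ) hζi hζ0 hW I c z (fun i => (ζ ^ l) ^ (t i / l))
      (fun i => t i % l) (z i0)⁻¹ (fun i hi => hKf (hc i hi)) (fun i _ => ⟨hK1 _, hK3 _⟩)
      (fun i _ => Nat.mod_lt _ hl0) (inv_ne_zero hz0) hzi' (by rw [inv_inv]; exact hzi)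
      (fun i hi => by rw [ht i hi]; exact hsplit _) hint hmin i0 hi0
  · -- the prime does not divide `m`
    have hcard : I.card < l := hI.resolve_left hdvd
    have hcop : Nat.Coprime l m := (Nat.Prime.coprime_iff_not_dvd hl).2 hdvd
    have h2 : IsPrimitiveRoot (ζ ^ m) l := h.pow hn0 (mul_comm l m)
    have hξ1 : (ζ ^ m) ^ l = 1 := h2.pow_eq_one
    have hξ0 : ζ ^ m ≠ 0 := pow_ne_zero _ hζ0
    have hξi : IsIntegral ℤ (ζ ^ m) := hζi.pow _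
    have hmem : ζ ∈ IntermediateField.adjoin (ℚ⟮ζ ^ l⟯ : IntermediateField ℚ ℂ) ({ζ ^ m} : Set ℂ) := by
      obtain ⟨a, b, -, hab⟩ := split_exp hl0 hcop hζ1 1
      rw [pow_one] at hab
      have key1 : (ζ ^ l) ^ a ∈ IntermediateField.adjoin (ℚ⟮ζ ^ l⟯ : IntermediateField ℚ ℂ) ({ζ ^ m} : Set ℂ) :=
        (IntermediateField.adjoin (ℚ⟮ζ ^ l⟯ : IntermediateField ℚ ℂ) ({ζ ^ m} : Set ℂ)).algebraMap_mem
          ⟨(ζ ^ l) ^ a, hK1 a⟩
      have key2 : (ζ ^ m) ^ b ∈ IntermediateField.adjoin (ℚ⟮ζ ^ l⟯ : IntermediateField ℚ ℂ) ({ζ ^ m} : Set ℂ) :=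
        pow_mem (mem_adjoin_simple_self _ (ζ ^ m)) b
      have key3 : ∀ x : ℂ, x = (ζ ^ l) ^ a * (ζ ^ m) ^ b →
          x ∈ IntermediateField.adjoin (ℚ⟮ζ ^ l⟯ : IntermediateField ℚ ℂ) ({ζ ^ m} : Set ℂ) := by
        intro x hx
        rw [hx]
        exact mul_mem key1 key2
      exact key3 ζ hab
    have hD : l - 1 ≤ (minpoly (ℚ⟮ζ ^ l⟯ : IntermediateField ℚ ℂ) (ζ ^ m)).natDegree := by
      refine deg_ge hm hn0 h1 h (hξi.tower_top) hmem ?_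
      rw [Nat.totient_mul_of_prime_of_not_dvd hl hdvd, mul_comm]
    have hW' : ∀ (a b : ℕ), b < l →
        W (ℚ⟮ζ ^ l⟯ : IntermediateField ℚ ℂ) (ζ ^ m) (l - 1) ((ζ ^ l) ^ a * (ζ ^ m) ^ b) := by
      intro a b hb
      by_cases hb1 : b < l - 1
      · exact W_single (hK1 _) (hK2 _) hb1
      · have hb2 : b = l - 1 := by omega
        refine ⟨fun _ => -(ζ ^ l) ^ a, fun _ => ⟨neg_mem (hK1 _), (hK2 _).neg⟩, ?_⟩
        have h3 := h2.geom_sum_eq_zero hl.one_lt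
        have h4 : range l = range (l - 1 + 1) := by rw [Nat.sub_add_cancel hl.one_le]
        rw [h4, sum_range_succ] at h3
        rw [hb2, ← mul_sum]
        have h5 : (ζ ^ m) ^ (l - 1) = -∑ i ∈ range (l - 1), (ζ ^ m) ^ i := by
          rw [eq_neg_iff_add_eq_zero, add_comm]
          exact h3
        rw [h5]
        ring
    have hW : ∀ i : ℕ, W (ℚ⟮ζ ^ l⟯ : IntermediateField ℚ ℂ) (ζ ^ m) (l - 1) (ζ ^ i) := by
      intro i
      obtain ⟨a, b, hb, hab⟩ := split_exp hl0 hcop hζ1 i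
      rw [hab]
      exact hW' a b hb
    have hab : ∀ i : ι, ∃ ab : ℕ × ℕ, ab.2 < l ∧ ζ ^ t i = (ζ ^ l) ^ ab.1 * (ζ ^ m) ^ ab.2 := by
      intro i
      obtain ⟨a, b, hb, hab⟩ := split_exp hl0 hcop hζ1 (t i)
      exact ⟨(a, b), hb, hab⟩
    choose g hg1 hg2 using hab
    obtain ⟨s0, hs0, hs0'⟩ : ∃ s0 ∈ range l, s0 ∉ I.image (fun i => (g i).2) := by
      apply exists_mem_notMem_of_card_lt_card
      rw [card_range]
      exact card_image_le.trans_lt hcard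
    rw [mem_range] at hs0
    have hs : ∀ i ∈ I, ((g i).2 + (l - 1 - s0)) % l < l - 1 := by
      intro i hi
      have h3 : (g i).2 ≠ s0 := fun h' => hs0' (mem_image.2 ⟨i, hi, h'⟩)
      have h4 := hg1 i
      by_cases h5 : (g i).2 + (l - 1 - s0) < l
      · rw [Nat.mod_eq_of_lt h5]
        omega
      · rw [Nat.mod_eq_sub_mod (by omega), Nat.mod_eq_of_lt (by omega)]
        omega
    have hthm : ∀ i ∈ I, z i * ((z i0)⁻¹ * (ζ ^ m) ^ (l - 1 - s0)) =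
        (ζ ^ l) ^ (g i).1 * (ζ ^ m) ^ (((g i).2 + (l - 1 - s0)) % l) := by
      intro i hi
      rw [← pow_eq_pow_mod _ hξ1, pow_add, ← mul_assoc, ht i hi, hg2 i]
      ring
    refine finish hn0 h hD hK (pow_mem (mem_adjoin_simple_self ℚ ζ) m) hξi hξ0 hW I c z
      (fun i => (ζ ^ l) ^ (g i).1) (fun i => ((g i).2 + (l - 1 - s0)) % l)
      ((z i0)⁻¹ * (ζ ^ m) ^ (l - 1 - s0)) (fun i hi => hKf (hc i hi)) (fun i _ => ⟨hK1 _, hK3 _⟩) hs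
      (mul_ne_zero (inv_ne_zero hz0) (pow_ne_zero _ hξ0)) (hzi'.mul (hξi.pow _)) ?_ hthm hint hmin i0 hi0
    rw [mul_inv, inv_inv]
    refine hzi.mul (isInt_of_pow hl0 ?_)
    rw [inv_pow, pow_right_comm, hξ1, one_pow, inv_one]

end Pool.Agent.K7.H58.Ih
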